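import Pool.Agent.PCL.StmtsB
import Pool.Agent.Helper46_PCL.SCL

/-!
Squad PCL (MP_1fc801_co), row SC2: scale selection with the weights `1/j²`.
-/

set_option autoImplicit false

namespace Pool.Agent.PCL.H46

theorem wsum (j₀ : ℕ) (hj₀ : 1 ≤ j₀) (M : ℕ) :
    ∑ j ∈ Finset.range (M + 1), (if j < j₀ then (0 : ℝ) else 1 / (2 * (j : ℝ) ^ 2)) ≤
      1 - 1 / ((M : ℝ) + 1) := by
  induction M with
  | zero =>
    rw [Finset.sum_range_succ, Finset.sum_range_zero, if_pos (by omega)]
    norm_num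
  | succ M ih =>
    rw [Finset.sum_range_succ]
    have h1 : (if M + 1 < j₀ then (0 : ℝ) else 1 / (2 * ((M + 1 : ℕ) : ℝ) ^ 2)) ≤
        1 / ((M : ℝ) + 1) - 1 / (((M + 1 : ℕ) : ℝ) + 1) := by
      have hM : (0 : ℝ) ≤ M := Nat.cast_nonneg _
      have h2 : 1 / ((M : ℝ) + 1) - 1 / (((M + 1 : ℕ) : ℝ) + 1) =
          1 / (((M : ℝ) + 1) * ((M : ℝ) + 2)) := by
        push_cast
        field_simp
        ring
      rw [h2]
      split_ifs
      · positivity
      · push_cast
        apply one_div_le_one_div_of_le (by positivity)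
        nlinarith
    linarith

/-- selection of a scale -/
theorem sel3 {α : Type} [DecidableEq α] (V : Finset α) (J : α → ℕ) (w : α → ℝ) (E : ℕ → ℝ)
    (P K F : ℝ) (Λ j₀ : ℕ) (hj₀ : 1 ≤ j₀) (hP : 0 < P) (hK : 1 ≤ K) (hF : 1 ≤ F)
    (hE : ∀ j, 1 ≤ E j) (hJ : ∀ v ∈ V, J v ≤ Λ)
    (hcard : ∀ j, ((V.filter fun v => J v = j).card : ℝ) ≤ F * E j)
    (hwE : ∀ v ∈ V, w v * E (J v) ≤ K * P)
    (hsum : (j₀ * (F * K) + 1) * P < ∑ v ∈ V, w v) :
    ∃ j, j₀ ≤ j ∧ j ≤ Λ ∧ P / (2 * (j : ℝ) ^ 2) ≤ ∑ v ∈ V.filter (fun v => J v = j), w v := by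
  by_contra hno
  push Not at hno
  have hS : ∀ j, ∑ v ∈ V.filter (fun v => J v = j), w v ≤ F * K * P := by
    intro j
    have hEj : 0 < E j := lt_of_lt_of_le one_pos (hE j)
    have h1 : ∀ v ∈ V.filter (fun v => J v = j), w v ≤ K * P / E j := by
      intro v hv
      rw [Finset.mem_filter] at hv
      rw [le_div_iff₀ hEj]
      have := hwE v hv.1
      rw [hv.2] at this
      exact this
    have h2 := Finset.sum_le_card_nsmul _ _ _ h1
    rw [nsmul_eq_mul] at h2
    refine h2.trans ?_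
    have h3 : 0 ≤ K * P / E j := by positivity
    calc ((V.filter fun v => J v = j).card : ℝ) * (K * P / E j)
        ≤ (F * E j) * (K * P / E j) := mul_le_mul_of_nonneg_right (hcard j) h3
      _ = F * K * P := by field_simp
  have hfib : ∑ v ∈ V, w v =
      ∑ j ∈ Finset.range (Λ + 1), ∑ v ∈ V.filter (fun v => J v = j), w v := by
    rw [Finset.sum_fiberwise_of_maps_to]
    intro v hv
    have := hJ v hv
    rw [Finset.mem_range]
    omega
  have hb : ∀ j ∈ Finset.range (Λ + 1), ∑ v ∈ V.filter (fun v => J v = j), w v ≤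
      (if j < j₀ then F * K * P else 0) +
        P * (if j < j₀ then (0 : ℝ) else 1 / (2 * (j : ℝ) ^ 2)) := by
    intro j hj
    rw [Finset.mem_range] at hj
    by_cases h : j < j₀
    · rw [if_pos h, if_pos h]
      linarith [hS j]
    · rw [if_neg h, if_neg h]
      have := hno j (by omega) (by omega)
      rw [mul_one_div]
      linarith
  have hle := Finset.sum_le_sum hb
  rw [← hfib, Finset.sum_add_distrib, ← Finset.mul_sum] at hle
  have hw := mul_le_mul_of_nonneg_left (wsum j₀ hj₀ Λ) hP.le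
  rw [← Finset.sum_filter, Finset.sum_const, nsmul_eq_mul] at hle
  have h6 : ((Finset.range (Λ + 1)).filter fun j => j < j₀).card ≤ j₀ := by
    calc ((Finset.range (Λ + 1)).filter fun j => j < j₀).card
        ≤ (Finset.range j₀).card := by
          apply Finset.card_le_card
          intro j hj
          rw [Finset.mem_filter] at hj
          exact Finset.mem_range.2 hj.2
      _ = j₀ := Finset.card_range _
  have h7 : (((Finset.range (Λ + 1)).filter fun j => j < j₀).card : ℝ) ≤ j₀ := by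
    exact_mod_cast h6
  have h8 : 0 ≤ F * K * P := by positivity
  have h9 := mul_le_mul_of_nonneg_right h7 h8
  have h10 : P * (1 - 1 / ((Λ : ℝ) + 1)) ≤ P := by
    have : 0 ≤ 1 / ((Λ : ℝ) + 1) := by positivity
    nlinarith
  nlinarith

theorem sc2 (hcnt : CntStmt) (hqlm : QlmStmt) (hrep : RepStmt) : Sc2Stmt := by
  intro D
  refine ⟨32 * (108 ^ D * 108 ^ D), ?_, ?_⟩
  · have : (1 : ℝ) ≤ 108 ^ D := one_le_pow₀ (by norm_num)
    nlinarith
  intro ι _ _ g N j₀ hD hN hg hj₀ hprp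
  classical
  obtain ⟨V, hV1, hV2, hV3, hV4⟩ := hrep ι g N hN hg
  set P : ℝ := ∏ i, (N i : ℝ) with hPdef
  have hP : 0 < P := Finset.prod_pos fun i _ => by
    have := hN i
    exact_mod_cast this
  set K : ℝ := 36 ^ D with hKdef
  set F : ℝ := 3 ^ D with hFdef
  have hK : 1 ≤ K := one_le_pow₀ (by norm_num)
  have hF : 1 ≤ F := one_le_pow₀ (by norm_num)
  have hFK : F * K = 108 ^ D := by
    rw [hFdef, hKdef, ← mul_pow]
    norm_num
  set Q : ℝ := 108 ^ D with hQdef
  have hQ : 1 ≤ Q := one_le_pow₀ (by norm_num)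
  have h9 : (9 : ℝ) ^ D ≤ Q := pow_le_pow_left₀ (by norm_num) (by norm_num) _
  obtain ⟨Λ, hΛ⟩ : ∃ Λ : ℕ, ∀ i, 4 * N i ≤ 2 ^ Λ := by
    refine ⟨∑ i, 4 * N i, fun i => ?_⟩
    have h1 : 4 * N i ≤ ∑ i, 4 * N i :=
      Finset.single_le_sum (f := fun i => 4 * N i) (fun _ _ => Nat.zero_le _) (Finset.mem_univ i)
    exact h1.trans (Nat.lt_two_pow_self).le
  -- the scale of a vector
  let J : (ι → ℤ) → ℕ := fun v => Nat.findGreatest (fun j => InB N (4 / 2 ^ j) v) Λ
  have hJle : ∀ v, J v ≤ Λ := fun v => Nat.findGreatest_le _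
  have hJ1 : ∀ v ∈ V, InB N (4 / 2 ^ J v) v := by
    intro v hv
    have h0 : InB N (4 / 2 ^ 0) v := by
      have := (hV1 v hv).2
      simpa using this
    exact Nat.findGreatest_spec (P := fun j => InB N (4 / 2 ^ j) v) (Nat.zero_le Λ) h0
  have hJ2 : ∀ v ∈ V, ¬ InB N (4 / 2 ^ (J v + 1)) v := by
    intro v hv hcon
    by_cases h : J v + 1 ≤ Λ
    · exact Nat.findGreatest_is_greatest (P := fun j => InB N (4 / 2 ^ j) v)
        (Nat.lt_succ_self (J v)) h hcon
    · have hJv : J v = Λ := le_antisymm (hJle v) (by omega)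
      rw [hJv] at hcon
      have hv0 := (hV1 v hv).1
      obtain ⟨i, hi⟩ := Function.ne_iff.1 hv0
      have h1 := hcon i
      have h2 : (1 : ℝ) ≤ |(v i : ℝ)| := by
        have : 1 ≤ |v i| := Int.one_le_abs hi
        exact_mod_cast this
      have h3 : (4 : ℝ) * N i ≤ 2 ^ Λ := by exact_mod_cast hΛ i
      have h4 : (0 : ℝ) < 2 ^ Λ := by positivity
      have h5 : (4 : ℝ) / 2 ^ (Λ + 1) * N i = 4 * N i / 2 ^ Λ / 2 := by
        rw [pow_succ]
        field_simp
      have h6 : 4 * (N i : ℝ) / 2 ^ Λ ≤ 1 := by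
        rw [div_le_one h4]
        exact h3
      rw [h5] at h1
      linarith
  have heps : ∀ j : ℕ, (0 : ℝ) < 2 / 2 ^ j := fun j => by positivity
  have heps2 : ∀ j : ℕ, (2 : ℝ) / 2 ^ j ≤ 4 := fun j => by
    have h1 : (1 : ℝ) ≤ 2 ^ j := one_le_pow₀ (by norm_num)
    rw [div_le_iff₀ (by positivity)]
    linarith
  have hsucc : ∀ j : ℕ, (4 : ℝ) / 2 ^ (j + 1) = 2 / 2 ^ j := fun j => by
    rw [pow_succ]
    field_simp
    norm_num
  have hdbl : ∀ j : ℕ, 2 * ((2 : ℝ) / 2 ^ j) = 4 / 2 ^ j := fun j => by ring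
  -- no short vectors on the two lines
  have hmin : ∀ v ∈ V, ∀ z, (z ∈ Lat g (pt g v) ∨ z ∈ Lat g (Complex.I * pt g v)) →
      InB N (2 / 2 ^ J v) z → z = 0 := by
    intro v hv z hz hzb
    by_contra hz0
    apply hJ2 v hv
    rw [hsucc]
    exact hV3 v hv z hz0 hz _ hzb
  let a : (ι → ℤ) → ℝ := fun v => (cnt (Lat g (pt g v)) N 4 : ℝ)
  let b : (ι → ℤ) → ℝ := fun v => (cnt (Lat g (Complex.I * pt g v)) N 4 : ℝ)
  have ha : ∀ v, 0 ≤ a v := fun v => Nat.cast_nonneg _
  have hb : ∀ v, 0 ≤ b v := fun v => Nat.cast_nonneg _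
  let E : ℕ → ℝ := fun j => ((bx N (2 / 2 ^ j)).card : ℝ)
  have hE : ∀ j, 1 ≤ E j := by
    intro j
    have h0 : (0 : ι → ℤ) ∈ bx N (2 / 2 ^ j) := by
      rw [mem_bx]
      intro i
      have := heps j
      simp only [Pi.zero_apply, Int.cast_zero, abs_zero]
      positivity
    have : 0 < (bx N (2 / 2 ^ j)).card := Finset.card_pos.2 ⟨0, h0⟩
    show (1 : ℝ) ≤ ((bx N (2 / 2 ^ j)).card : ℝ)
    exact_mod_cast this
  have h36 : (9 * (4 : ℝ)) ^ Fintype.card ι * ∏ i, (N i : ℝ) = K * P := by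
    rw [hD, hKdef, hPdef]
    norm_num
  have hwE : ∀ v ∈ V, (a v * b v) * E (J v) ≤ K * P := by
    intro v hv
    have hdis : Disjoint (Lat g (pt g v)) (Lat g (Complex.I * pt g v)) :=
      Lat_disj hg fun t => I_ne (pt_ne hg (hV1 v hv).1) t
    have := (hqlm ι N (Lat g (pt g v)) (Lat g (Complex.I * pt g v)) (2 / 2 ^ J v) 4 hN hdis
      (heps _) (heps2 _) (by norm_num) (fun x hx hb => hmin v hv x (Or.inl hx) hb)
      (fun x hx hb => hmin v hv x (Or.inr hx) hb)).1
    rw [h36] at this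
    exact this
  have hcard : ∀ j, ((V.filter fun v => J v = j).card : ℝ) ≤ F * E j := by
    intro j
    have h1 := (hcnt ι N (2 / 2 ^ j) (heps j).le).2.1
    rw [hD] at h1
    refine le_trans ?_ h1
    have h2 : (V.filter fun v => J v = j) ⊆ bx N (2 * (2 / 2 ^ j)) := by
      intro v hv
      rw [Finset.mem_filter] at hv
      rw [mem_bx, hdbl, ← hv.2]
      exact hJ1 v hv.1
    exact_mod_cast Finset.card_le_card h2
  have hB4 : ((bx N 4).card : ℝ) ≤ 9 ^ D * P := by
    have h1 := (hcnt ι N 4 (by norm_num)).2.2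
    refine h1.trans ?_
    have h2 : ∏ i, (2 * (4 * (N i : ℝ)) + 1) ≤ ∏ i : ι, (9 * (N i : ℝ)) := by
      apply Finset.prod_le_prod
      · intro i _
        positivity
      · intro i _
        have : (1 : ℝ) ≤ N i := by exact_mod_cast hN i
        linarith
    rw [Finset.prod_mul_distrib, Finset.prod_const, Finset.card_univ, hD] at h2
    exact h2
  have hsum : (j₀ * (F * K) + 1) * P < ∑ v ∈ V, a v * b v := by
    have h1 : 32 * (Q * Q) * j₀ * P ≤ 2 * (9 ^ D * P) + 2 * ∑ v ∈ V, a v * b v := by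
      refine hprp.trans (hV4.trans ?_)
      have : (2 : ℝ) * (bx N 4).card ≤ 2 * (9 ^ D * P) := by linarith
      linarith
    have hj : (1 : ℝ) ≤ j₀ := by exact_mod_cast hj₀
    have h2 : (9 : ℝ) ^ D * P ≤ Q * P := mul_le_mul_of_nonneg_right h9 hP.le
    have h3 : Q * j₀ * P ≤ Q * Q * j₀ * P := by
      have h30 : Q * j₀ ≤ Q * Q * j₀ := by
        apply mul_le_mul_of_nonneg_right _ (by linarith)
        nlinarith
      exact mul_le_mul_of_nonneg_right h30 hP.le
    have h4 : Q * P ≤ Q * j₀ * P := by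
      have h40 : Q ≤ Q * j₀ := by nlinarith
      exact mul_le_mul_of_nonneg_right h40 hP.le
    have h5 : P ≤ Q * P := by nlinarith
    rw [hFK]
    nlinarith
  obtain ⟨j, hj0, hjΛ, hjs⟩ := sel3 V J (fun v => a v * b v) E P K F Λ j₀ hj₀ hP hK hF hE
    (fun v _ => hJle v) hcard hwE hsum
  have hj1 : (1 : ℝ) ≤ j := by
    have : 1 ≤ j := hj₀.trans hj0
    exact_mod_cast this
  obtain ⟨l, hldef⟩ : ∃ l : ℝ, l = 2 * (j : ℝ) ^ 2 := ⟨_, rfl⟩
  rw [← hldef] at hjs
  have hl : 1 ≤ l := by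
    rw [hldef]
    nlinarith
  have hl0 : 0 < l := lt_of_lt_of_le one_pos hl
  have hl4 : ∀ c : ℝ, 32 * c * (j : ℝ) ^ 4 = 8 * c * l ^ 2 := fun c => by
    rw [hldef]
    ring
  have hl2 : ∀ c : ℝ, 32 * c * (j : ℝ) ^ 2 = 16 * c * l := fun c => by
    rw [hldef]
    ring
  set W : Finset (ι → ℤ) := V.filter fun v => J v = j with hW
  have hWE : ∀ v ∈ W, (a v * b v) * E j ≤ K * P := by
    intro v hv
    rw [hW, Finset.mem_filter] at hv
    have := hwE v hv.1
    rw [hv.2] at this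
    exact this
  have hbig := sel2 W (fun v => a v * b v) (E j) P K F l hP hK hF (hE j) hl (hcard j) hWE hjs
  set T₀ : Finset (ι → ℤ) := W.filter fun v => P / (2 * F * l) ≤ (a v * b v) * E j with hT₀
  have hEj0 : 0 < E j := lt_of_lt_of_le one_pos (hE j)
  have hT₀mem : ∀ v ∈ T₀, v ∈ V ∧ J v = j ∧ P / (2 * F * l) ≤ (a v * b v) * E j := by
    intro v hv
    rw [hT₀, Finset.mem_filter, hW, Finset.mem_filter] at hv
    exact ⟨hv.1.1, hv.1.2, hv.2⟩
  have hne : T₀.Nonempty := by
    rw [Finset.nonempty_iff_ne_empty]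
    intro h
    rw [h] at hbig
    simp at hbig
    linarith
  refine ⟨j, hj0, ?_, ?_⟩
  · obtain ⟨v, hv⟩ := hne
    obtain ⟨hvV, hvJ, hv3⟩ := hT₀mem v hv
    obtain ⟨i, hi⟩ := Function.ne_iff.1 (hV1 v hvV).1
    refine ⟨i, ?_⟩
    have h1 := hJ1 v hvV i
    rw [hvJ] at h1
    have h2 : (1 : ℝ) ≤ |(v i : ℝ)| := by
      have : 1 ≤ |v i| := Int.one_le_abs hi
      exact_mod_cast this
    have h3 := h2.trans h1
    rw [div_mul_eq_mul_div, le_div_iff₀ (by positivity), one_mul] at h3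
    exact_mod_cast h3
  rw [hl4, hl2]
  by_cases hsmall : E j ≤ 4 * K * l
  · -- first alternative
    left
    obtain ⟨v, hv⟩ := hne
    obtain ⟨hvV, hvJ, hv3⟩ := hT₀mem v hv
    have hz := pt_ne hg (hV1 v hvV).1
    have hab : 0 ≤ a v * b v := mul_nonneg (ha v) (hb v)
    have h1 : P / (2 * F * l) ≤ (a v * b v) * (4 * K * l) :=
      hv3.trans (mul_le_mul_of_nonneg_left hsmall hab)
    have h2 : P ≤ 8 * Q * l ^ 2 * (a v * b v) := by
      rw [div_le_iff₀ (by positivity)] at h1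
      rw [← hFK]
      linarith
    have h3 : 8 * Q * l ^ 2 * (a v * b v) ≤ 8 * (Q * Q) * l ^ 2 * (a v * b v) := by
      apply mul_le_mul_of_nonneg_right _ hab
      apply mul_le_mul_of_nonneg_right _ (by positivity)
      nlinarith
    have h4 := h2.trans h3
    have hC : 0 ≤ 8 * (Q * Q) * l ^ 2 := by positivity
    rcases le_total (a v) (b v) with hle | hle
    · refine ⟨Complex.I * pt g v, mul_ne_zero Complex.I_ne_zero hz, h4.trans ?_⟩
      apply mul_le_mul_of_nonneg_left _ hC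
      show a v * b v ≤ (b v) ^ 2
      rw [pow_two]
      exact mul_le_mul_of_nonneg_right hle (hb v)
    · refine ⟨pt g v, hz, h4.trans ?_⟩
      apply mul_le_mul_of_nonneg_left _ hC
      show a v * b v ≤ (a v) ^ 2
      rw [pow_two]
      exact mul_le_mul_of_nonneg_left hle (ha v)
  · -- second alternative
    right
    rw [not_le] at hsmall
    refine ⟨T₀.filter fun v => (b v) ^ 2 * E j ≤ K * P, ?_, ?_⟩
    · refine ⟨?_, ?_, ?_, ?_, ?_⟩
      · intro v hv
        obtain ⟨hvV, hvJ, hv3⟩ := hT₀mem v (Finset.mem_filter.1 hv).1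
        rw [hdbl, ← hvJ]
        exact hJ1 v hvV
      · intro v hv
        obtain ⟨hvV, hvJ, hv3⟩ := hT₀mem v (Finset.mem_filter.1 hv).1
        exact (hV1 v hvV).1
      · intro v hv v' hv' hne t
        obtain ⟨hvV, hvJ, hv3⟩ := hT₀mem v (Finset.mem_filter.1 hv).1
        obtain ⟨hvV', hvJ', hv3'⟩ := hT₀mem v' (Finset.mem_filter.1 hv').1
        exact (hV2 v hvV v' hvV' hne t).1
      · intro v hv z hz hzb
        obtain ⟨hvV, hvJ, hv3⟩ := hT₀mem v (Finset.mem_filter.1 hv).1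
        rw [← hvJ] at hzb
        exact hmin v hvV z (Or.inl hz) hzb
      · intro v hv
        have hvb := (Finset.mem_filter.1 hv).2
        obtain ⟨hvV, hvJ, hv3⟩ := hT₀mem v (Finset.mem_filter.1 hv).1
        show 1 / (8 * (Q * Q) * l ^ 2) * P ≤ (a v) ^ 2 * E j
        have hKP : 0 < K * P := by positivity
        have h1 : (P / (2 * F * l)) ^ 2 ≤ ((a v * b v) * E j) ^ 2 :=
          pow_le_pow_left₀ (by positivity) hv3 2
        have h2 : ((a v * b v) * E j) ^ 2 = ((a v) ^ 2 * E j) * ((b v) ^ 2 * E j) := by ring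
        have h3 : ((a v) ^ 2 * E j) * ((b v) ^ 2 * E j) ≤ ((a v) ^ 2 * E j) * (K * P) :=
          mul_le_mul_of_nonneg_left hvb (by positivity)
        have h4 : (P / (2 * F * l)) ^ 2 ≤ ((a v) ^ 2 * E j) * (K * P) := by
          rw [h2] at h1
          exact h1.trans h3
        have h5 : (1 / (8 * (Q * Q) * l ^ 2) * P) * (K * P) ≤ (P / (2 * F * l)) ^ 2 := by
          rw [← hFK]
          rw [div_pow, le_div_iff₀ (by positivity)]
          have h50 : 1 / (8 * (F * K * (F * K)) * l ^ 2) * P * (K * P) * (2 * F * l) ^ 2 =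
              P ^ 2 / (2 * K) := by
            field_simp
            norm_num
          rw [h50, div_le_iff₀ (by positivity)]
          nlinarith [sq_nonneg P]
        exact le_of_mul_le_mul_right (h5.trans h4) hKP
    · have hone : (T₀.filter fun v => ¬ ((b v) ^ 2 * E j ≤ K * P)).card ≤ 1 := by
        rw [Finset.card_le_one]
        intro v hv v' hv'
        rw [Finset.mem_filter] at hv hv'
        by_contra hne
        obtain ⟨hvV, hvJ, -⟩ := hT₀mem v hv.1
        obtain ⟨hvV', hvJ', -⟩ := hT₀mem v' hv'.1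
        have hdis : Disjoint (Lat g (Complex.I * pt g v)) (Lat g (Complex.I * pt g v')) := by
          apply Lat_disj hg
          intro t ht
          apply (hV2 v hvV v' hvV' hne t).1
          apply mul_left_cancel₀ Complex.I_ne_zero
          rw [ht]
          ring
        have hq := (hqlm ι N (Lat g (Complex.I * pt g v)) (Lat g (Complex.I * pt g v'))
          (2 / 2 ^ j) 4 hN hdis (heps _) (heps2 _) (by norm_num)
          (fun x hx hb => hmin v hvV x (Or.inr hx) (by rw [hvJ]; exact hb))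
          (fun x hx hb => hmin v' hvV' x (Or.inr hx) (by rw [hvJ']; exact hb))).1
        rw [h36] at hq
        have hq' : b v * b v' * E j ≤ K * P := hq
        have h1 := not_le.1 hv.2
        have h2 := not_le.1 hv'.2
        have hKP : 0 < K * P := by positivity
        have h3 : (K * P) * (K * P) < ((b v) ^ 2 * E j) * ((b v') ^ 2 * E j) :=
          mul_lt_mul'' h1 h2 hKP.le hKP.le
        have h4 : ((b v) ^ 2 * E j) * ((b v') ^ 2 * E j) = (b v * b v' * E j) ^ 2 := by ring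
        have h5 : (b v * b v' * E j) ^ 2 ≤ (K * P) ^ 2 := by
          apply pow_le_pow_left₀ _ hq'
          have := hb v
          have := hb v'
          positivity
        rw [h4] at h3
        nlinarith
      have hsplit := Finset.card_filter_add_card_filter_not (s := T₀)
        (fun v => (b v) ^ 2 * E j ≤ K * P)
      have hT : (T₀.card : ℝ) ≤ ((T₀.filter fun v => (b v) ^ 2 * E j ≤ K * P).card : ℝ) + 1 := by
        have : T₀.card ≤ (T₀.filter fun v => (b v) ^ 2 * E j ≤ K * P).card + 1 := by omega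
        exact_mod_cast this
      set t : ℝ := ((T₀.filter fun v => (b v) ^ 2 * E j ≤ K * P).card : ℝ) with ht
      have ht0 : 0 ≤ t := Nat.cast_nonneg _
      have hKl : 0 < 2 * K * l := by positivity
      have h1 : E j ≤ 2 * K * l * (t + 1) :=
        hbig.trans (mul_le_mul_of_nonneg_left hT hKl.le)
      have h2 : E j ≤ 4 * K * l * t := by linarith
      show E j ≤ 16 * (Q * Q) * l * t
      refine h2.trans ?_
      apply mul_le_mul_of_nonneg_right _ ht0
      apply mul_le_mul_of_nonneg_right _ hl0.le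
      have h3 : K ≤ F * K := by nlinarith
      rw [hFK] at h3
      nlinarith

end Pool.Agent.PCL.H46
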